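import Pool.Agent.H21.DG.Final

/-!
# Fractional shares in the Maker-Breaker degree game and in balancing games on set systems

In the unbiased Maker-Breaker game on a finite board, let `A i` be finitely many subsets of the
board, of size at least `d`, such that every point of the board lies in at most `r` of them. Let
`α p i ≥ 0` with `∑ i, α p i ≤ 1` for every point `p` (the set `A i` owns the fraction `α p i` of
the point `p`). Then Maker, no matter who starts, can guarantee that, for every `i`, he has, up to a
small error, at least as many points of `A i` as Breaker has points of `A i`, counted with the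
weights `α p i`. The degree game on a graph is the case where the board is the set of edges and the
`A i` are the stars; orientations (`α` with values in `{0, 1}`) give the classical bound `d / 4`,
`α = 1 / 2` gives `d / 3`.

Idea: split the `A i` into blocks of size between `d` and `2 d`, and give a block the weight
`(8 r d)⁻¹ ∏ (1 - h α p i)⁻¹ (1 - h) ^ m`, the product over Breaker's points `p` of the block, `m`
the number of Maker's points in it. Maker keeps the vector of the weights in the Shearer region of
the graph of all pairs of blocks which meet. This is possible since the blocks containing Breaker's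
point form a clique and the (signed) independence polynomial is affine in the weights of a clique:
on average over the replies (in the block `i` with probability proportional to `α p i`) it does not
decrease.
-/

set_option autoImplicit false

namespace Pool.Agent.Results.MP_e47675_co.FractionalShares

open Finset
open Pool.Agent.H21.DG (Guarantees)

lemma exists_d {r : ℕ} (hr : 1 ≤ r) {c : ℝ} (hc : c < 1 / ((r : ℝ) + 1)) :
    ∃ d : ℕ, 1 ≤ d ∧ c ≤ 1 / ((r : ℝ) + 1) - 2 * √(Real.log (8 * r * d) / d) := by
  obtain ⟨η, hη⟩ : ∃ η : ℝ, η = (1 / ((r : ℝ) + 1) - c) / 2 := ⟨_, rfl⟩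
  have hη0 : 0 < η := by rw [hη]; linarith
  have hrR : (1 : ℝ) ≤ r := by exact_mod_cast hr
  have hr0 : (0 : ℝ) < 8 * r := by linarith
  have hlog : ∀ᶠ t : ℝ in Filter.atTop, ‖Real.log t‖ ≤ η ^ 2 / (8 * r) * ‖t‖ :=
    (Real.isLittleO_log_id_atTop).def (by positivity)
  obtain ⟨T, hT⟩ := Filter.eventually_atTop.1 hlog
  obtain ⟨d, hd⟩ := exists_nat_ge (max T 1)
  have hd1 : (1 : ℝ) ≤ d := (le_max_right _ _).trans hd
  have hdT : T ≤ 8 * r * d := by
    have h1 : T ≤ d := (le_max_left _ _).trans hd
    nlinarith
  refine ⟨d, by exact_mod_cast hd1, ?_⟩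
  have h1 := hT _ hdT
  have hpos : (0 : ℝ) < 8 * r * d := by positivity
  rw [Real.norm_eq_abs, Real.norm_eq_abs, abs_of_pos hpos] at h1
  have h2 : Real.log (8 * r * d) ≤ η ^ 2 * d := by
    refine (le_abs_self _).trans (h1.trans (le_of_eq ?_))
    field_simp
  have h3 : Real.log (8 * r * d) / d ≤ η ^ 2 := by
    rw [div_le_iff₀ (by linarith)]
    exact h2
  have h4 : √(Real.log (8 * r * d) / d) ≤ η := by
    rw [Real.sqrt_le_left hη0.le]
    exact h3
  rw [hη] at h4
  linarith

section Graph

variable {V : Type} [Fintype V] [DecidableEq V] (G : SimpleGraph V) [DecidableRel G.Adj]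

lemma incidence_subset (v : V) : G.incidenceFinset v ⊆ G.edgeFinset := by
  intro e he
  rw [SimpleGraph.mem_incidenceFinset] at he
  exact SimpleGraph.mem_edgeFinset.2 he.1

lemma filter_incidence {a b : V} (hab : G.Adj a b) :
    univ.filter (fun v => s(a, b) ∈ G.incidenceFinset v) = {a, b} := by
  ext v
  rw [mem_filter, SimpleGraph.mem_incidenceFinset, mem_insert, mem_singleton]
  constructor
  · rintro ⟨_, _, h⟩
    exact Sym2.mem_iff.1 h
  · intro h
    exact ⟨mem_univ _, hab, Sym2.mem_iff.2 h⟩

end Graph

/-- **Theorem.** (1) The answer to the question is yes: there are `ε > 0` and `d₀` such that for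
every `d ≥ d₀` and every finite graph of minimum degree `d` Maker, moving first, can guarantee that
all degrees of his graph are at least `(1 / 4 + ε) d`.
(2) Let all degrees of the finite graph `G` be at least `d ≥ 1` and `a v ≥ 0` with
`a u + a v ≤ 1` for adjacent `u`, `v`. Then Maker, moving first or second, can guarantee
`(a v / (1 + a v) - 2 √(log (16 d) / d)) deg v` edges at every vertex `v` at once. (`a v = 1 / 2`:
a third of the degree of every vertex.)
(3) Let `A i` be finitely many subsets of a finite set `X`, all with at least `d ≥ 1` elements, such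
that every point lies in at most `r ≥ 1` of them, and `a i ≥ 0` numbers with `∑ a i ≤ 1`, the sum
over the `i` with `p ∈ A i`, for every point `p`. Then Maker can guarantee
`(a i / (1 + a i) - 2 √(log (8 r d) / d)) |A i|` points of `A i`, for all `i` at once (for
`a i = 1 / r` this is `(1 / (r + 1) - 2 √(log (8 r d) / d)) |A i|`).
(4) More generally, for weights `α p i ≥ 0` with sum at most `1` for every point `p`, Maker can
guarantee that the sum of the `α p i` over the points of Breaker in `A i` is at most
`(1 + 2 h) |M ∩ A i| + 2 h |A i|`, for all `i` at once, `h = √(log (8 r d) / d)`. -/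
theorem result :
    (∃ (ε : ℝ) (d₀ : ℕ), 0 < ε ∧ ∀ d : ℕ, d₀ ≤ d →
      ∀ (V : Type) [Fintype V] [DecidableEq V] [Nonempty V] (G : SimpleGraph V)
        [DecidableRel G.Adj], G.minDegree = d →
        Guarantees G.edgeFinset
          (fun M => ∀ v, (1 / 4 + ε) * d ≤ ((M ∩ G.incidenceFinset v).card : ℝ)) true ∅ ∅) ∧
    (∀ d : ℕ, 1 ≤ d →
      ∀ (V : Type) [Fintype V] [DecidableEq V] (G : SimpleGraph V) [DecidableRel G.Adj],
        (∀ v, d ≤ G.degree v) → ∀ a : V → ℝ, (∀ v, 0 ≤ a v) →
        (∀ u v, G.Adj u v → a u + a v ≤ 1) → ∀ t : Bool,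
        Guarantees G.edgeFinset
          (fun M => ∀ v, (a v / (1 + a v) - 2 * √(Real.log (16 * d) / d)) * G.degree v ≤
            ((M ∩ G.incidenceFinset v).card : ℝ)) t ∅ ∅) ∧
    (∀ r d : ℕ, 1 ≤ r → 1 ≤ d →
      ∀ (P ι : Type) [DecidableEq P] [Fintype ι] (X : Finset P) (A : ι → Finset P),
        (∀ i, A i ⊆ X) → (∀ i, d ≤ (A i).card) →
        (∀ p ∈ X, (univ.filter (fun i => p ∈ A i)).card ≤ r) →
        ∀ a : ι → ℝ, (∀ i, 0 ≤ a i) →
        (∀ p ∈ X, ∑ i ∈ univ.filter (fun i => p ∈ A i), a i ≤ 1) → ∀ t : Bool,
        Guarantees X (fun M => ∀ i, (a i / (1 + a i) - 2 * √(Real.log (8 * r * d) / d)) *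
          (A i).card ≤ ((M ∩ A i).card : ℝ)) t ∅ ∅) ∧
    (∀ r d : ℕ, 1 ≤ r → 1 ≤ d →
      ∀ (P ι : Type) [DecidableEq P] [Fintype ι] (X : Finset P) (A : ι → Finset P),
        (∀ i, A i ⊆ X) → (∀ i, d ≤ (A i).card) →
        (∀ p ∈ X, (univ.filter (fun i => p ∈ A i)).card ≤ r) →
        ∀ α : P → ι → ℝ, (∀ p i, 0 ≤ α p i) →
        (∀ p ∈ X, ∑ i ∈ univ.filter (fun i => p ∈ A i), α p i ≤ 1) → ∀ t : Bool,
        Guarantees X (fun M => ∀ i, ∑ p ∈ A i \ M, α p i ≤
          (1 + 2 * √(Real.log (8 * r * d) / d)) * ((M ∩ A i).card : ℝ) +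
            2 * √(Real.log (8 * r * d) / d) * (A i).card) t ∅ ∅) := by
  have hdeg2 : ∀ (V : Type) [Fintype V] [DecidableEq V] (G : SimpleGraph V) [DecidableRel G.Adj],
      ∀ e ∈ G.edgeFinset, (univ.filter (fun v => e ∈ G.incidenceFinset v)).card ≤ 2 := by
    intro V _ _ G _ e
    induction e using Sym2.ind with
    | _ a b =>
      intro he
      rw [filter_incidence G (SimpleGraph.mem_edgeFinset.1 he)]
      exact card_le_two
  refine ⟨?_, ?_, ?_, ?_⟩
  · obtain ⟨d₀, hd1, hcd⟩ := exists_d (r := 2) (by norm_num) (c := 1 / 4 + 1 / 24) (by norm_num)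
    refine ⟨1 / 24, d₀, by norm_num, fun d hd V _ _ _ G _ hG => ?_⟩
    have hmin : ∀ v, d ≤ G.degree v := fun v => hG ▸ G.minDegree_le_degree v
    have hmain := Pool.Agent.H21.DG.main_equal (r := 2) (by norm_num) hd1 G.edgeFinset
      (fun v => G.incidenceFinset v) (fun v => incidence_subset G v)
      (fun v => by rw [G.card_incidenceFinset_eq_degree]; exact hd.trans (hmin v)) (hdeg2 V G) true
    refine hmain.mono fun M hM v => ?_
    have h1 := hM v
    rw [G.card_incidenceFinset_eq_degree] at h1
    have h2 : (d : ℝ) ≤ G.degree v := by exact_mod_cast hmin v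
    calc (1 / 4 + 1 / 24) * (d : ℝ) ≤ (1 / 4 + 1 / 24) * G.degree v :=
          mul_le_mul_of_nonneg_left h2 (by norm_num)
      _ ≤ _ := mul_le_mul_of_nonneg_right hcd (Nat.cast_nonneg _)
      _ ≤ _ := h1
  · intro d hd V _ _ G _ hG a ha hadj t
    have := Pool.Agent.H21.DG.main_shares (r := 2) (d := d) (by norm_num) hd G.edgeFinset
      (fun v => G.incidenceFinset v) (fun v => incidence_subset G v)
      (fun v => by rw [G.card_incidenceFinset_eq_degree]; exact hG v) (hdeg2 V G) a ha
      (by
        intro e
        induction e using Sym2.ind with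
        | _ u v =>
          intro he
          have huv : G.Adj u v := SimpleGraph.mem_edgeFinset.1 he
          rw [filter_incidence G huv, sum_pair huv.ne]
          exact hadj u v huv) t
    have e : (8 : ℝ) * ((2 : ℕ) : ℝ) * d = 16 * d := by push_cast; ring
    rw [e] at this
    simpa only [G.card_incidenceFinset_eq_degree] using this
  · intro r d hr hd P ι _ _ X A hAX hcard hdeg a ha hsum t
    exact Pool.Agent.H21.DG.main_shares hr hd X A hAX hcard hdeg a ha hsum t
  · intro r d hr hd P ι _ _ X A hAX hcard hdeg α hα hsum t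
    exact Pool.Agent.H21.DG.main hr hd X A hAX hcard hdeg α hα hsum t

end Pool.Agent.Results.MP_e47675_co.FractionalShares
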