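import Pool.Agent.H92.DG.Main

/-!
# Maker's degrees in the Maker-Breaker degree game, all vertices at once, on hypergraphs too

Maker (or Breaker), moving first or second, gets at least the share `1 / (r + 1)`, up to an explicit
error term, of EVERY large set of a finite family in which each element of the board lies in at most
`r` large sets; for `r = 2` these are the stars of the vertices of a graph, and every vertex of degree
at least `d` gets a third of its own degree. The number of vertices and the maximum degree play no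
role.
-/

set_option autoImplicit false

namespace Pool.Agent.Results.MP_e47675_co.LocalShares

open Finset
open Pool.Agent.H92.DG (Wins share kap share_ge family)

/-- The degree of the vertex `v` in the graph whose edge set is `S`. -/
def degIn {V : Type*} [DecidableEq V] (S : Finset (Sym2 V)) (v : V) : ℕ :=
  (S.filter (fun e => v ∈ e)).card

section

variable {V : Type} [Fintype V] [DecidableEq V] (G : SimpleGraph V) [DecidableRel G.Adj]

lemma two (e : Sym2 V) : (univ.filter (fun v : V => e ∈ G.incidenceFinset v)).card ≤ 2 := by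
  induction e using Sym2.ind with
  | _ a b =>
    refine (Finset.card_le_card (t := {a, b}) ?_).trans (Finset.card_insert_le a {b})
    intro v hv
    have h1 := (Finset.mem_filter.1 hv).2
    rw [SimpleGraph.mem_incidenceFinset] at h1
    have h2 := Sym2.mem_iff.1 h1.2
    rw [Finset.mem_insert, Finset.mem_singleton]
    exact h2

lemma le_degIn (M : Finset (Sym2 V)) (v : V) : (M ∩ G.incidenceFinset v).card ≤ degIn M v := by
  unfold degIn
  apply Finset.card_le_card
  intro e he
  rw [Finset.mem_inter, SimpleGraph.mem_incidenceFinset] at he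
  rw [Finset.mem_filter]
  exact ⟨he.1, he.2.2⟩

lemma incidence_sub (v : V) : G.incidenceFinset v ⊆ G.edgeFinset := by
  intro e he
  rw [SimpleGraph.mem_incidenceFinset] at he
  rw [SimpleGraph.mem_edgeFinset]
  exact he.1

end

lemma graph {d : ℕ} (hd1 : 1 ≤ d) {l : ℝ} (hl : 1 ≤ l)
    (hd : 16 * (Real.log (2 * l * d) + 2 / (3 * l)) ≤ d)
    (V : Type) [Fintype V] [DecidableEq V] (G : SimpleGraph V) [DecidableRel G.Adj] (t : Bool) :
    Wins G.edgeFinset (fun M => ∀ v, d ≤ G.degree v → share 2 d l (G.degree v) ≤ (degIn M v : ℝ))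
      t ∅ ∅ := by
  have h := family (r := 2) hd1 hl (by norm_num)
    (by
      have e : 4 * ((2 : ℕ) : ℝ) ^ 2 * (Real.log (2 * l * d) + 2 * (((2 : ℕ) : ℝ) - 1) / (3 * l)) =
        16 * (Real.log (2 * l * d) + 2 / (3 * l)) := by
        push_cast
        ring
      rw [e]
      exact hd)
    G.edgeFinset (fun v => G.incidenceFinset v) (incidence_sub G)
    (by
      intro e _
      refine (Finset.card_le_card ?_).trans (two G e)
      intro v hv
      rw [Finset.mem_filter] at hv ⊢
      exact ⟨hv.1, hv.2.2⟩) t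
  apply h.mono
  intro M hM v hv
  have h1 := hM v (by rw [G.card_incidenceFinset_eq_degree]; exact hv)
  rw [G.card_incidenceFinset_eq_degree] at h1
  refine h1.trans ?_
  exact_mod_cast le_degIn G M v

lemma graph_share {c : ℝ} (hc : c < 1 / 3) : ∃ d₀ : ℕ, ∀ d : ℕ, d₀ ≤ d →
    ∀ (V : Type) [Fintype V] [DecidableEq V] (G : SimpleGraph V) [DecidableRel G.Adj] (t : Bool),
      Wins G.edgeFinset (fun M => ∀ v, d ≤ G.degree v → c * G.degree v ≤ (degIn M v : ℝ)) t ∅ ∅ := by
  obtain ⟨d₀, h0, h1⟩ := share_ge (r := 2) (c := c) (by norm_num) (by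
    have : (1 : ℝ) / (((2 : ℕ) : ℝ) + 1) = 1 / 3 := by norm_num
    rw [this]
    exact hc)
  refine ⟨d₀, ?_⟩
  intro d hd V _ _ G _ t
  obtain ⟨h2, h3⟩ := h1 d hd
  have h4 := graph (l := 1) (h0.trans hd) le_rfl (by
      have e : 4 * ((2 : ℕ) : ℝ) ^ 2 * (Real.log (2 * 1 * d) + 2 * (((2 : ℕ) : ℝ) - 1) / (3 * 1)) =
        16 * (Real.log (2 * 1 * d) + 2 / (3 * 1)) := by
        push_cast
        ring
      rw [e] at h2
      exact h2) V G t
  apply h4.mono
  intro M hM v hv
  exact (h3 _ hv).trans (hM v hv)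

/-- **Theorem.** -/
theorem result :
    -- (1) every finite family of subsets of a finite board
    (∀ (r d : ℕ) (l : ℝ), 1 ≤ r → 1 ≤ d → 1 ≤ l →
      4 * (r : ℝ) ^ 2 * (Real.log (2 * l * d) + 2 * (r - 1) / (3 * l)) ≤ d →
      ∀ (E I : Type) [DecidableEq E] [Fintype I] (X : Finset E) (A : I → Finset E),
        (∀ i, A i ⊆ X) → (∀ e ∈ X, {i : I | d ≤ (A i).card ∧ e ∈ A i}.ncard ≤ r) →
        ∀ t : Bool, Wins X (fun M => ∀ i, d ≤ (A i).card →
          ((A i).card : ℝ) / (r + 1) - (2 * (r : ℝ) ^ 2 + r + 1) / (r + 1) ^ 2 *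
            √((A i).card * Real.log (2 * l * (A i).card) +
              2 * (r - 1) * ((A i).card : ℝ) ^ 2 / (3 * l * d)) - 1 ≤ ((M ∩ A i).card : ℝ))
          t ∅ ∅) ∧
    -- (2) any proportion below `1 / (r + 1)`
    (∀ (r : ℕ) (c : ℝ), 1 ≤ r → c < 1 / (r + 1) → ∃ d₀ : ℕ, ∀ d : ℕ, d₀ ≤ d →
      ∀ (E I : Type) [DecidableEq E] [Fintype I] (X : Finset E) (A : I → Finset E),
        (∀ i, A i ⊆ X) → (∀ e ∈ X, {i : I | d ≤ (A i).card ∧ e ∈ A i}.ncard ≤ r) →
        ∀ t : Bool, Wins X (fun M => ∀ i, d ≤ (A i).card → c * (A i).card ≤ ((M ∩ A i).card : ℝ))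
          t ∅ ∅) ∧
    -- (3) graphs: every vertex of degree at least `d` gets a third of its degree
    (∀ (d : ℕ) (l : ℝ), 1 ≤ d → 1 ≤ l → 16 * (Real.log (2 * l * d) + 2 / (3 * l)) ≤ d →
      ∀ (V : Type) [Fintype V] [DecidableEq V] (G : SimpleGraph V) [DecidableRel G.Adj] (t : Bool),
        Wins G.edgeFinset (fun M => ∀ v, d ≤ G.degree v →
          (G.degree v : ℝ) / 3 - 11 / 9 * √(G.degree v * Real.log (2 * l * G.degree v) +
            2 * (G.degree v : ℝ) ^ 2 / (3 * l * d)) - 1 ≤ (degIn M v : ℝ)) t ∅ ∅) ∧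
    (∀ c : ℝ, c < 1 / 3 → ∃ d₀ : ℕ, ∀ d : ℕ, d₀ ≤ d →
      ∀ (V : Type) [Fintype V] [DecidableEq V] (G : SimpleGraph V) [DecidableRel G.Adj] (t : Bool),
        Wins G.edgeFinset (fun M => ∀ v, d ≤ G.degree v → c * G.degree v ≤ (degIn M v : ℝ))
          t ∅ ∅) ∧
    -- (4) the question
    (∃ (ε : ℝ) (d₀ : ℕ), 0 < ε ∧ ∀ d : ℕ, d₀ ≤ d →
      ∀ (V : Type) [Fintype V] [DecidableEq V] [Nonempty V] (G : SimpleGraph V)
        [DecidableRel G.Adj], G.minDegree = d →
        Wins G.edgeFinset (fun M => ∀ v, (1 / 4 + ε) * d ≤ (degIn M v : ℝ)) true ∅ ∅) := by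
  classical
  have hcard : ∀ (r d : ℕ) (E I : Type) [DecidableEq E] [Fintype I] (X : Finset E)
      (A : I → Finset E), (∀ e ∈ X, {i : I | d ≤ (A i).card ∧ e ∈ A i}.ncard ≤ r) →
      ∀ e ∈ X, (univ.filter (fun i => d ≤ (A i).card ∧ e ∈ A i)).card ≤ r := by
    intro r d E I _ _ X A h e he
    have h1 := h e he
    rw [Set.ncard_eq_toFinset_card'] at h1
    convert h1 using 2
    ext i
    simp
  refine ⟨?_, ?_, ?_, ?_, ?_⟩
  · intro r d l hr hd1 hl hd E I _ _ X A hAX hA t
    have h := family hd1 hl hr hd X A hAX (hcard r d E I X A hA) t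
    exact h.mono (fun M hM i hi => hM i hi)
  · intro r c hr hc
    obtain ⟨d₀, h0, h1⟩ := share_ge hr hc
    refine ⟨d₀, ?_⟩
    intro d hd E I _ _ X A hAX hA t
    obtain ⟨h2, h3⟩ := h1 d hd
    have h := family (h0.trans hd) le_rfl hr h2 X A hAX (hcard r d E I X A hA) t
    exact h.mono (fun M hM i hi => (h3 _ hi).trans (hM i hi))
  · intro d l hd1 hl hd V _ _ G _ t
    apply (graph hd1 hl hd V G t).mono
    intro M hM v hv
    have h1 := hM v hv
    have e : share 2 d l (G.degree v) =
        (G.degree v : ℝ) / 3 - 11 / 9 * √(G.degree v * Real.log (2 * l * G.degree v) +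
            2 * (G.degree v : ℝ) ^ 2 / (3 * l * d)) - 1 := by
      unfold share kap
      norm_num
    rw [e] at h1
    exact h1
  · intro c hc
    exact graph_share hc
  · obtain ⟨d₀, h0⟩ := graph_share (c := 1 / 4 + 1 / 24) (by norm_num)
    refine ⟨1 / 24, d₀, by norm_num, ?_⟩
    intro d hd V _ _ _ G _ hG
    apply (h0 d hd V G true).mono
    intro M hM v
    have h1 : d ≤ G.degree v := by
      rw [← hG]
      exact G.minDegree_le_degree v
    have h2 : (d : ℝ) ≤ G.degree v := by exact_mod_cast h1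
    exact (mul_le_mul_of_nonneg_left h2 (by norm_num)).trans (hM v h1)

end Pool.Agent.Results.MP_e47675_co.LocalShares
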